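import Mathlib
import Pool.Agent.X172.GR.Stm

set_option autoImplicit false

namespace Pool.Agent.X168.GR

open Pool.Agent.X172.GR

/-- A paperfolding type sequence. -/
def fw (n : ℕ) : ℕ :=
  if h : n = 0 then 0 else if n % 2 = 1 then (n / 2) % 2 else fw (n / 2)
termination_by n
decreasing_by omega

lemma fw_odd (q : ℕ) : fw (2 * q + 1) = q % 2 := by
  rw [fw]
  have h1 : ¬ (2 * q + 1 = 0) := by omega
  have h2 : (2 * q + 1) % 2 = 1 := by omega
  rw [dif_neg h1, if_pos h2]
  congr 1
  omega

lemma fw_even (q : ℕ) (hq : 0 < q) : fw (2 * q) = fw q := by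
  rw [fw]
  have h1 : ¬ (2 * q = 0) := by omega
  have h2 : ¬ ((2 * q) % 2 = 1) := by omega
  rw [dif_neg h1, if_neg h2]
  congr 1
  omega

lemma fw_pow (a q : ℕ) : fw (2 ^ a * (2 * q + 1)) = q % 2 := by
  induction a with
  | zero => simpa using fw_odd q
  | succ a ih =>
    rw [pow_succ, mul_comm (2 ^ a) 2, mul_assoc, fw_even _ (by positivity), ih]

lemma fw_lt (n : ℕ) : fw n < 2 := by
  induction n using Nat.strong_induction_on with
  | _ n ih =>
    rw [fw]
    split
    · omega
    · split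
      · omega
      · exact ih _ (by omega)

/-- The square-free word on four letters. -/
def wd (n : ℕ) : ℕ := n % 2 + 2 * fw n

lemma wd_lt (n : ℕ) : wd n < 4 := by
  have := fw_lt n
  unfold wd
  omega

lemma wd_inj {m n : ℕ} (h : wd m = wd n) : m % 2 = n % 2 ∧ fw m = fw n := by
  unfold wd at h
  have h1 := fw_lt m
  have h2 := fw_lt n
  omega

/-- `wd` has no squares. -/
lemma wd_sq (p n0 : ℕ) (hp : 0 < p) :
    ∃ n, n0 ≤ n ∧ n < n0 + p ∧ wd n ≠ wd (n + p) := by
  by_contra hcon
  push Not at hcon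
  obtain ⟨b, r, hr, hpr⟩ := Nat.exists_eq_two_pow_mul_odd hp.ne'
  obtain ⟨r', rfl⟩ := hr
  rcases b with _ | a
  · have := (wd_inj (hcon n0 le_rfl (by omega))).1
    simp at hpr
    omega
  · have hP : 0 < 2 ^ a := by positivity
    have hle : 2 ^ (a + 1) ≤ p := by
      rw [hpr]
      exact Nat.le_mul_of_pos_right _ (by omega)
    have h2 : 2 ^ (a + 1) = 2 * 2 ^ a := by rw [pow_succ]; ring
    have key : ∃ q, n0 ≤ 2 ^ a * (2 * q + 1) ∧ 2 ^ a * (2 * q + 1) < n0 + p := by
      have hdm := Nat.div_add_mod n0 (2 ^ (a + 1))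
      have hml := Nat.mod_lt n0 (show 0 < 2 ^ (a + 1) by positivity)
      set m := n0 / 2 ^ (a + 1) with hm
      set s := n0 % 2 ^ (a + 1) with hs
      rw [h2] at hdm hml hle
      by_cases hc : s ≤ 2 ^ a
      · refine ⟨m, ?_, ?_⟩ <;> nlinarith
      · refine ⟨m + 1, ?_, ?_⟩ <;> nlinarith
    obtain ⟨q, hq1, hq2⟩ := key
    have hE := (wd_inj (hcon _ hq1 hq2)).2
    have h3 : 2 ^ a * (2 * q + 1) + p = 2 ^ a * (2 * (q + (2 * r' + 1)) + 1) := by
      rw [hpr, h2]; ring
    rw [h3, fw_pow, fw_pow] at hE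
    omega

/-- the type sequence -/
def TT (n : ℕ) (i : ℕ) : Fin 6 :=
  if n ∣ i + 1 then 4 else ⟨wd (i % n), by have := wd_lt (i % n); omega⟩

lemma TT_eq4 (n i : ℕ) : TT n i = 4 ↔ n ∣ i + 1 := by
  unfold TT
  split
  · simp [*]
  · rename_i h
    simp only [h, iff_false]
    intro h1
    have h2 := congrArg Fin.val h1
    have h3 := wd_lt (i % n)
    simp at h2
    omega

lemma TT_val (n i : ℕ) (h : ¬ n ∣ i + 1) : (TT n i).val = wd (i % n) := by
  unfold TT
  rw [if_neg h]

theorem t_TY : S_TY := by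
  intro n hn
  refine ⟨TT n, ?_, ?_, ?_, ?_⟩
  · intro i
    have h1 : (n ∣ i + n + 1) ↔ (n ∣ i + 1) := by
      have : i + n + 1 = (i + 1) + n := by ring
      rw [this]
      exact Nat.dvd_add_left (dvd_refl n)
    have h2 : (i + n) % n = i % n := Nat.add_mod_right i n
    by_cases h : n ∣ i + 1
    · rw [(TT_eq4 n i).2 h, (TT_eq4 n (i + n)).2 (h1.2 h)]
    · apply Fin.ext
      rw [TT_val n i h, TT_val n (i + n) (fun h' => h (h1.1 h')), h2]
  · intro i h
    by_cases h4 : n ∣ i + 1
    · rw [(TT_eq4 n i).2 h4] at h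
      exact absurd h (by decide)
    · have h1 := TT_val n i h4
      have h2 := congrArg Fin.val h
      have h3 := wd_lt (i % n)
      have h5 : ((5 : Fin 6) : ℕ) = 5 := rfl
      omega
  · intro i
    exact TT_eq4 n i
  · intro i p hp hnp
    by_contra hcon
    push Not at hcon
    have hA : ∀ j, j < 2 * p → ¬ n ∣ i + j + 1 := by
      intro j hj hd
      by_cases hjp : j < p
      · have h1 := hcon j hjp
        rw [(TT_eq4 n (i + j)).2 hd] at h1
        have h2 := (TT_eq4 n (i + p + j)).1 h1.symm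
        have e : i + p + j + 1 = (i + j + 1) + p := by ring
        rw [e] at h2
        exact hnp ((Nat.dvd_add_right hd).1 h2)
      · obtain ⟨k, rfl⟩ : ∃ k, j = p + k := ⟨j - p, by omega⟩
        have h1 := hcon k (by omega)
        have e0 : i + p + k = i + (p + k) := by ring
        rw [e0, (TT_eq4 n (i + (p + k))).2 hd] at h1
        have h2 := (TT_eq4 n (i + k)).1 h1
        have e : i + (p + k) + 1 = (i + k + 1) + p := by ring
        rw [e] at hd
        exact hnp ((Nat.dvd_add_right h2).1 hd)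
    have hdm := Nat.div_add_mod i n
    have hml := Nat.mod_lt i (show 0 < n by omega)
    set r := i % n with hr
    have hB : r + 2 * p ≤ n - 1 := by
      by_contra hlt
      push Not at hlt
      refine hA (n - 1 - r) (by omega) ⟨i / n + 1, ?_⟩
      have : n * (i / n + 1) = n * (i / n) + n := by ring
      omega
    have hC : ∀ j, j < 2 * p → (i + j) % n = r + j := by
      intro j hj
      have e : i + j = (r + j) + n * (i / n) := by omega
      rw [e, Nat.add_mul_mod_self_left]
      exact Nat.mod_eq_of_lt (by omega)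
    obtain ⟨m, hm1, hm2, hm3⟩ := wd_sq p r hp
    obtain ⟨j, rfl⟩ : ∃ j, m = r + j := ⟨m - r, by omega⟩
    have hj : j < p := by omega
    have h1 := congrArg Fin.val (hcon j hj)
    rw [TT_val n (i + j) (hA j (by omega))] at h1
    have e0 : i + p + j = i + (p + j) := by ring
    rw [e0, TT_val n (i + (p + j)) (hA (p + j) (by omega)), hC j (by omega), hC (p + j) (by omega)] at h1
    apply hm3
    rw [h1]
    congr 1
    ring

end Pool.Agent.X168.GR
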